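import Mathlib
import Pool.Agent.Lib.MP_7ac902_al.Indicable

/-!
# Right-orderable `n`-Engel groups are locally indicable

For every `n`, every nontrivial finitely generated subgroup of a right-orderable `n`-Engel group
maps onto the infinite cyclic group.

Idea of the proof (files `Pool/Agent/Lib/MP_7ac902_al/`).  The group acts by automorphisms on the
complete linear order of its lower sets.  The Engel law gives the recursion
`g_0 = x`, `g_{k+1} = g_k⁻¹ y⁻¹ g_k`, `g_m = y⁻¹` (`m = n + 1`).  If `a` is fixed by `y`, the point
`j > a` is fixed by `x` and `y`, and `y` has no fixed point in `(a, j)`, then the recursion shows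
`x a = a`.  Hence if `u` has a fixed point between two consecutive common fixed points of `u` and
`v`, such fixed points are cofinal there in both directions.  A ping-pong argument with the powers
`u ^ N`, `v ^ N` then shows that `u`, `v` cannot both have fixed points there.  So in the interval
between consecutive global fixed points the elements with a fixed point form a normal subgroup,
proper if the group is finitely generated, and the quotient is an Archimedean ordered group.
-/

namespace Pool.Agent.Results.MP_7ac902_al.LocallyIndicable

universe u

/-- Let `G` be a group with a linear order invariant under multiplication on the right, and suppose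
that `G` satisfies the `n`-Engel law `[x, y, …, y] = 1`, where `[z, y] = z⁻¹ y⁻¹ z y`.  Then `G` is
locally indicable: every nontrivial finitely generated subgroup has a homomorphism onto `ℤ`. -/
theorem result (n : ℕ) (G : Type u) [Group G]
    (hG : ∃ lo : LinearOrder G, ∀ a b c : G, lo.le a b → lo.le (a * c) (b * c))
    (hE : ∀ x y : G, (fun z : G => z⁻¹ * y⁻¹ * z * y)^[n] x = 1) :
    ∀ H : Subgroup G, H.FG → H ≠ ⊥ → ∃ φ : H →* Multiplicative ℤ, Function.Surjective φ := by
  obtain ⟨lo, hlo⟩ := hG
  intro H hfg hne
  let loH : LinearOrder H := @LinearOrder.lift' H G lo Subtype.val Subtype.val_injective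
  have hloH : ∀ a b c : H, a ≤ b → a * c ≤ b * c := fun a b c h => hlo _ _ _ h
  have hEH : ∀ x y : H, (fun z : H => z⁻¹ * y⁻¹ * z * y)^[n] x = 1 := by
    intro x y
    have key : ∀ k : ℕ, (((fun z : H => z⁻¹ * y⁻¹ * z * y)^[k] x : H) : G) =
        (fun z : G => z⁻¹ * (y : G)⁻¹ * z * (y : G))^[k] (x : G) := by
      intro k
      induction k with
      | zero => rfl
      | succ k ih =>
        rw [Function.iterate_succ_apply', Function.iterate_succ_apply', ← ih]
        rfl
    apply Subtype.ext
    rw [key n]
    exact hE _ _
  have hfgH : Group.FG H := (Group.fg_iff_subgroup_fg H).2 hfg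
  have hnt : ∃ g : H, g ≠ 1 := by
    by_contra hcon
    push Not at hcon
    apply hne
    rw [Subgroup.eq_bot_iff_forall]
    intro x hx
    have := hcon ⟨x, hx⟩
    exact congrArg Subtype.val this
  exact Pool.Agent.Lib.MP_7ac902_al.exists_hom_of_rightOrder hloH hEH hfgH hnt

end Pool.Agent.Results.MP_7ac902_al.LocallyIndicable
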